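import Pool.Agent.H93.EG.Targets

/-!
MP_009700_an, board eg_modules, row L_LM2.
-/

namespace Pool.Agent.H5.EG

open MeasureTheory Set Metric Filter Topology Pool.Agent.H93.EG
open Pool.Agent.H93.BL hiding T_B1 T_B2 T_B3 T_SB T_SC
open Pool.Agent.H93.EN

theorem lm2_ae_ball (x : ℂ) (s : ℝ) (hs : 0 < s) :
    closedBall x s =ᵐ[(volume : Measure ℂ)] ball x s := by
  refine (ball_subset_closedBall.eventuallyLE.antisymm ?_).symm
  refine ae_le_set.2 ?_
  rw [closedBall_sdiff_ball]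
  exact Measure.addHaar_sphere_of_ne_zero volume x hs.ne'

theorem lm2_Q (Ω : Set ℂ) (f : ℂ → ℂ) (hΩ : IsOpen Ω) (hc : IsPreconnected Ω)
    (hloc : ∀ (x₀ : ℂ) (R : ℝ), 0 < R → ball x₀ (2 * R) ⊆ Ω → ∀ x ∈ ball x₀ R, ∀ x' ∈ ball x₀ R,
      ∀ s ∈ Ioc 0 (R / 2), ∫ y in ball x s, f y = ∫ y in ball x' s, f y)
    (x₁ : ℂ) (hx₁ : x₁ ∈ Ω) : ∀ x ∈ Ω, ∃ s₀ > (0 : ℝ), ∀ s ∈ Ioo 0 s₀,
      ∫ y in ball x s, f y = ∫ y in ball x₁ s, f y := by
  set Q : ℂ → Prop := fun x => ∃ s₀ > (0 : ℝ), ∀ s ∈ Ioo 0 s₀,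
      ∫ y in ball x s, f y = ∫ y in ball x₁ s, f y with hQ
  have htr : ∀ x ∈ Ω, ∃ R > (0 : ℝ), ball x R ⊆ Ω ∧ ∀ x' ∈ ball x R, ∀ x'' ∈ ball x R,
      Q x' → Q x'' := by
    intro x hx
    obtain ⟨R, hR, hRb⟩ := Metric.isOpen_iff.1 hΩ x hx
    refine ⟨R / 2, by positivity, (ball_subset_ball (by linarith)).trans hRb, ?_⟩
    intro x' hx' x'' hx'' ⟨s₀, hs₀, hs⟩
    refine ⟨min s₀ (R / 4), by positivity, ?_⟩
    intro s hs'
    have h1 := hloc x (R / 2) (by positivity) (by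
      rw [mul_div_cancel₀ R (two_ne_zero)]; exact hRb) x' hx' x'' hx'' s
      ⟨hs'.1, by have := hs'.2.trans_le (min_le_right _ _); linarith⟩
    rw [← h1]
    exact hs s ⟨hs'.1, hs'.2.trans_le (min_le_left _ _)⟩
  have hQx₁ : Q x₁ := ⟨1, one_pos, fun s _ => rfl⟩
  set U : Set ℂ := {x | x ∈ Ω ∧ Q x} with hU
  set V : Set ℂ := {x | x ∈ Ω ∧ ¬ Q x} with hV
  have hUo : IsOpen U := by
    rw [Metric.isOpen_iff]
    rintro x ⟨hx, hxQ⟩
    obtain ⟨R, hR, hRΩ, ht⟩ := htr x hx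
    exact ⟨R, hR, fun y hy => ⟨hRΩ hy, ht x (mem_ball_self hR) y hy hxQ⟩⟩
  have hVo : IsOpen V := by
    rw [Metric.isOpen_iff]
    rintro x ⟨hx, hxQ⟩
    obtain ⟨R, hR, hRΩ, ht⟩ := htr x hx
    exact ⟨R, hR, fun y hy => ⟨hRΩ hy, fun h => hxQ (ht y hy x (mem_ball_self hR) h)⟩⟩
  have hcov : Ω ⊆ U ∪ V := by
    intro x hx
    by_cases h : Q x
    · exact Or.inl ⟨hx, h⟩
    · exact Or.inr ⟨hx, h⟩
  have hdis : Ω ∩ (U ∩ V) = ∅ := by
    ext x
    simp only [mem_inter_iff, mem_empty_iff_false, iff_false, not_and]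
    rintro - ⟨-, h⟩ ⟨-, h'⟩
    exact h' h
  rcases isPreconnected_iff_subset_of_disjoint.1 hc U V hUo hVo hcov hdis with h | h
  · intro x hx
    exact (h hx).2
  · exact absurd hQx₁ (h hx₁).2

theorem lm2 : T_LM2 := by
  intro Ω f hΩ hc hf hloc
  rcases Ω.eq_empty_or_nonempty with hemp | hne
  · refine ⟨0, ?_⟩
    rw [hemp, Measure.restrict_empty]
    rw [ae_zero]
    exact Filter.eventually_bot
  have hΩm : MeasurableSet Ω := hΩ.measurableSet
  have hint : Integrable (Ω.indicator f) (volume : Measure ℂ) :=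
    (integrable_indicator_iff hΩm).mpr hf
  have hli : LocallyIntegrable (Ω.indicator f) (volume : Measure ℂ) := hint.locallyIntegrable
  have hleb := IsUnifLocDoublingMeasure.ae_tendsto_average (μ := (volume : Measure ℂ)) hli 1
  have hseq : Tendsto (fun n : ℕ => (1 : ℝ) / (n + 1)) atTop (𝓝[>] 0) := by
    refine tendsto_nhdsWithin_iff.2 ⟨tendsto_one_div_add_atTop_nhds_zero_nat, ?_⟩
    exact Eventually.of_forall fun n => mem_Ioi.2 (by positivity)
  have hL : ∀ᵐ x : ℂ, Tendsto (fun n : ℕ =>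
      ⨍ y in closedBall x ((1 : ℝ) / (n + 1)), Ω.indicator f y) atTop (𝓝 (Ω.indicator f x)) := by
    filter_upwards [hleb] with x hx
    exact hx (fun _ : ℕ => x) (fun n : ℕ => (1 : ℝ) / (n + 1)) hseq
      (Eventually.of_forall fun n => by
        rw [one_mul]; exact mem_closedBall_self (by positivity))
  have hex : ∃ x ∈ Ω, Tendsto (fun n : ℕ =>
      ⨍ y in closedBall x ((1 : ℝ) / (n + 1)), Ω.indicator f y) atTop
        (𝓝 (Ω.indicator f x)) := by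
    by_contra hcon
    push Not at hcon
    have h0 : volume Ω = 0 := measure_mono_null (fun x hx => hcon x hx) hL
    exact (hΩ.measure_pos volume hne).ne' h0
  obtain ⟨x₁, hx₁, hL₁⟩ := hex
  have hQ := lm2_Q Ω f hΩ hc hloc x₁ hx₁
  have hball : ∀ x ∈ Ω, ∀ᶠ n : ℕ in atTop,
      ⨍ y in closedBall x ((1 : ℝ) / (n + 1)), Ω.indicator f y =
        (volume.real (ball (0 : ℂ) ((1 : ℝ) / (n + 1))))⁻¹ •
          ∫ y in ball x ((1 : ℝ) / (n + 1)), f y := by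
    intro x hx
    obtain ⟨R, hR, hRb⟩ := Metric.isOpen_iff.1 hΩ x hx
    have hev : ∀ᶠ n : ℕ in atTop, (1 : ℝ) / (n + 1) < R := by
      have := tendsto_one_div_add_atTop_nhds_zero_nat (𝕜 := ℝ)
      exact this.eventually (gt_mem_nhds hR)
    filter_upwards [hev] with n hn
    have hpos : (0 : ℝ) < 1 / ((n : ℝ) + 1) := by positivity
    rw [setAverage_eq, measureReal_congr (lm2_ae_ball x _ hpos),
      setIntegral_congr_set (lm2_ae_ball x _ hpos)]
    have h1 : volume.real (ball x ((1 : ℝ) / (n + 1))) =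
        volume.real (ball (0 : ℂ) ((1 : ℝ) / (n + 1))) := by
      simp only [Measure.real, Complex.volume_ball]
    have h2 : ∫ y in ball x ((1 : ℝ) / (n + 1)), Ω.indicator f y =
        ∫ y in ball x ((1 : ℝ) / (n + 1)), f y := by
      apply setIntegral_congr_fun measurableSet_ball
      intro y hy
      exact indicator_of_mem (hRb (ball_subset_ball hn.le hy)) f
    rw [h1, h2]
  refine ⟨f x₁, ?_⟩
  rw [ae_restrict_iff' hΩm]
  filter_upwards [hL] with x hx hxΩ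
  rw [indicator_of_mem hxΩ] at hx
  rw [indicator_of_mem hx₁] at hL₁
  obtain ⟨s₀, hs₀, hs⟩ := hQ x hxΩ
  have hev : ∀ᶠ n : ℕ in atTop, (1 : ℝ) / (n + 1) < s₀ := by
    have := tendsto_one_div_add_atTop_nhds_zero_nat (𝕜 := ℝ)
    exact this.eventually (gt_mem_nhds hs₀)
  have heq : (fun n : ℕ => ⨍ y in closedBall x₁ ((1 : ℝ) / (n + 1)), Ω.indicator f y)
      =ᶠ[atTop] (fun n : ℕ => ⨍ y in closedBall x ((1 : ℝ) / (n + 1)), Ω.indicator f y) := by
    filter_upwards [hball x hxΩ, hball x₁ hx₁, hev] with n h1 h2 h3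
    have hpos : (0 : ℝ) < 1 / ((n : ℝ) + 1) := by positivity
    rw [h1, h2, hs _ ⟨hpos, h3⟩]
  exact tendsto_nhds_unique hx (hL₁.congr' heq)

end Pool.Agent.H5.EG
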